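import Pool.Agent.Helper88.D4.Stmts

/-!
# Project D4 (MP_e1889a_ag): Wronskians (statements `S_WR`, `S_WN`)
-/

set_option autoImplicit false

namespace Pool.Agent.Helper13.D4

open Pool.Agent.Helper88.D4

variable {K : Type} [Field K] [Algebra ℂ K]

theorem isW_iterate {r : ℕ} (H : Fin r → Derivation ℂ K K) (Z : Derivation ℂ K K)
    (κ : Fin r → ℤ) (hZ : ∀ m φ, IsW H m φ → IsW H (m + κ) (Z φ)) (m : Fin r → ℤ) (φ : K)
    (h : IsW H m φ) (i : ℕ) : IsW H (m + i • κ) ((Z : K → K)^[i] φ) := by
  induction i with
  | zero => simpa using h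
  | succ i ih =>
    rw [Function.iterate_succ_apply', succ_nsmul, ← add_assoc]
    exact hZ _ _ ih

/-- `Z'^i φ = Z^i φ + ∑_{l < i} c l * Z^l φ` with coefficients which depend only on the weight. -/
theorem exists_coeff {r : ℕ} (H : Fin r → Derivation ℂ K K) (Z Z' : Derivation ℂ K K)
    (κ : Fin r → ℤ) (hZ' : ∀ m φ, IsW H m φ → IsW H (m + κ) (Z' φ))
    (C : (Fin r → ℤ) → K) (hC : ∀ m φ, IsW H m φ → Z' φ = Z φ + C m * φ) (m : Fin r → ℤ)
    (i : ℕ) : ∃ c : ℕ → K, ∀ φ, IsW H m φ →
      (Z' : K → K)^[i] φ = (Z : K → K)^[i] φ + ∑ l ∈ Finset.range i, c l * (Z : K → K)^[l] φ := by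
  induction i with
  | zero => exact ⟨fun _ => 0, fun φ _ => by simp⟩
  | succ i ih =>
    obtain ⟨c, hc⟩ := ih
    set e : ℕ → K := fun l => if l < i then c l else 1 with he
    have hsum : ∀ g : ℕ → K, g i + ∑ l ∈ Finset.range i, c l * g l =
        ∑ l ∈ Finset.range (i + 1), e l * g l := by
      intro g
      rw [Finset.sum_range_succ, add_comm]
      congr 1
      · exact Finset.sum_congr rfl fun l hl => by
          rw [he]; simp only; rw [if_pos (Finset.mem_range.mp hl)]
      · rw [he]; simp
    refine ⟨fun l => Z (e l) + (if l = 0 then 0 else e (l - 1)) + C (m + i • κ) * e l, ?_⟩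
    intro φ hφ
    have h1 := isW_iterate H Z' κ hZ' m φ hφ i
    rw [Function.iterate_succ_apply', hC _ _ h1, hc φ hφ,
      hsum (fun l => (Z : K → K)^[l] φ), map_sum]
    have h2 : ∀ l, Z (e l * (Z : K → K)^[l] φ) =
        e l * (Z : K → K)^[l + 1] φ + Z (e l) * (Z : K → K)^[l] φ := by
      intro l
      rw [Derivation.leibniz, smul_eq_mul, smul_eq_mul, Function.iterate_succ_apply', mul_comm
        ((Z : K → K)^[l] φ)]
    simp only [h2, Finset.sum_add_distrib]
    have h3 : ∑ l ∈ Finset.range (i + 1), e l * (Z : K → K)^[l + 1] φ =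
        (Z : K → K)^[i + 1] φ +
          ∑ l ∈ Finset.range (i + 1), (if l = 0 then 0 else e (l - 1)) * (Z : K → K)^[l] φ := by
      rw [Finset.sum_range_succ, Finset.sum_range_succ' (fun l =>
        (if l = 0 then 0 else e (l - 1)) * (Z : K → K)^[l] φ)]
      have : e i = 1 := by rw [he]; simp
      rw [this]
      simp
      ring
    rw [h3, Finset.mul_sum]
    simp only [add_mul, Finset.sum_add_distrib, mul_assoc]
    ring

theorem s_WR : S_WR := by
  intro K _ _ r H Z Z' κ _ hZ' C hC n f m hf
  have key := exists_coeff H Z Z' κ hZ' C hC m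
  choose c hc using key
  unfold wr
  set L : Matrix (Fin n) (Fin n) K := Matrix.of fun i l =>
    if l = i then 1 else if (l : ℕ) < i then c i l else 0 with hL
  have hprod : (Matrix.of fun (i j : Fin n) => (Z' : K → K)^[i] (f j)) =
      L * Matrix.of fun (i j : Fin n) => (Z : K → K)^[i] (f j) := by
    ext i j
    rw [Matrix.mul_apply]
    simp only [Matrix.of_apply, hL]
    rw [hc i (f j) (hf j)]
    have hi : (i : ℕ) < n := i.2
    have h1 : ∑ l ∈ Finset.range (i : ℕ), c i l * (Z : K → K)^[l] (f j) =
        ∑ l : Fin n, if (l : ℕ) < i then c i l * (Z : K → K)^[(l : ℕ)] (f j) else 0 := by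
      rw [Fin.sum_univ_eq_sum_range (fun l => if l < (i : ℕ) then
        c i l * (Z : K → K)^[l] (f j) else 0) n, ← Finset.sum_filter]
      congr 1
      ext l
      simp only [Finset.mem_range, Finset.mem_filter]
      omega
    rw [h1]
    have h2 : (Z : K → K)^[(i : ℕ)] (f j) =
        ∑ l : Fin n, if l = i then (Z : K → K)^[(l : ℕ)] (f j) else 0 := by
      rw [Finset.sum_ite_eq' Finset.univ i]; simp
    rw [h2, ← Finset.sum_add_distrib]
    refine Finset.sum_congr rfl fun l _ => ?_
    by_cases hl : l = i
    · subst hl; simp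
    · simp only [if_neg hl]
      split_ifs <;> simp
  have hdet : L.det = 1 := by
    rw [Matrix.det_of_lowerTriangular L]
    · refine Finset.prod_eq_one fun i _ => ?_
      simp [hL]
    · intro i j hij
      have h1 : (i : Fin n) < j := hij
      simp only [hL, Matrix.of_apply]
      rw [if_neg (ne_of_gt h1), if_neg]
      exact not_lt.mpr (le_of_lt h1)
  rw [hprod, Matrix.det_mul, hdet, one_mul]

theorem wn_aux {r : ℕ} (H : Fin r → Derivation ℂ K K) (Z : Derivation ℂ K K)
    (κ : Fin r → ℤ) (hZ : ∀ m φ, IsW H m φ → IsW H (m + κ) (Z φ))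
    (hcon : ∀ h, (∀ i, H i h = 0) → Z h = 0 → Cst h) (m : Fin r → ℤ) (n : ℕ) :
    ∀ f : Fin n → K, (∀ j, IsW H m (f j)) → LinearIndependent ℂ f → wr Z f ≠ 0 := by
  induction n with
  | zero => intro f _ _; simp [wr]
  | succ n ih =>
    intro f hf hli h0
    have hli' : LinearIndependent ℂ (fun j : Fin n => f j.castSucc) :=
      hli.comp _ (Fin.castSucc_injective n)
    have hne := ih (fun j => f j.castSucc) (fun j => hf _) hli'
    -- the small Wronskian matrix has trivial kernel
    have hinj : ∀ w : Fin n → K, (∀ i : Fin n, ∑ j, (Z : K → K)^[(i : ℕ)] (f j.castSucc) * w j = 0) →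
        w = 0 := by
      intro w hw
      by_contra hw0
      apply hne
      unfold wr
      exact Matrix.exists_mulVec_eq_zero_iff.mp ⟨w, hw0, by
        ext i
        simpa [Matrix.mulVec, dotProduct] using hw i⟩
    obtain ⟨v, hv0, hv⟩ := Matrix.exists_mulVec_eq_zero_iff.mpr h0
    have hv' : ∀ i : ℕ, i < n + 1 →
        ∑ j : Fin n, (Z : K → K)^[i] (f j.castSucc) * v j.castSucc +
          (Z : K → K)^[i] (f (Fin.last n)) * v (Fin.last n) = 0 := by
      intro i hi
      have := congrFun hv ⟨i, hi⟩
      simpa [Matrix.mulVec, dotProduct, Fin.sum_univ_castSucc] using this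
    have hlast : v (Fin.last n) ≠ 0 := by
      intro hl
      apply hv0
      have h1 : (fun j : Fin n => v j.castSucc) = 0 := by
        apply hinj
        intro i
        have := hv' i (by omega)
        rw [hl, mul_zero, add_zero] at this
        exact this
      ext j
      refine Fin.lastCases ?_ (fun j => ?_) j
      · simpa using hl
      · exact congrFun h1 j
    -- normalised coefficients
    set c : Fin n → K := fun j => -(v j.castSucc / v (Fin.last n)) with hc
    have hrel : ∀ i : ℕ, i < n + 1 → (Z : K → K)^[i] (f (Fin.last n)) =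
        ∑ j : Fin n, (Z : K → K)^[i] (f j.castSucc) * c j := by
      intro i hi
      have h1 := hv' i hi
      have h2 : (Z : K → K)^[i] (f (Fin.last n)) =
          -(∑ j : Fin n, (Z : K → K)^[i] (f j.castSucc) * v j.castSucc) / v (Fin.last n) := by
        rw [eq_div_iff hlast]
        linear_combination h1
      rw [h2, neg_div, Finset.sum_div, ← Finset.sum_neg_distrib]
      refine Finset.sum_congr rfl fun j _ => ?_
      rw [hc]
      simp only
      ring
    have hder : ∀ (D : Derivation ℂ K K) (i : ℕ), D (∑ j : Fin n, (Z : K → K)^[i] (f j.castSucc) * c j) =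
        ∑ j : Fin n, (Z : K → K)^[i] (f j.castSucc) * D (c j) +
          ∑ j : Fin n, D ((Z : K → K)^[i] (f j.castSucc)) * c j := by
      intro D i
      rw [map_sum, ← Finset.sum_add_distrib]
      refine Finset.sum_congr rfl fun j _ => ?_
      rw [Derivation.leibniz, smul_eq_mul, smul_eq_mul]
      ring
    have hZc : (fun j => Z (c j)) = 0 := by
      apply hinj
      intro i
      have h1 := hrel i (by omega)
      have h2 := hrel (i + 1) (by omega)
      have h3 := congrArg Z h1
      rw [hder] at h3
      simp only [← Function.iterate_succ_apply' (Z : K → K)] at h3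
      rw [h2] at h3
      linear_combination -h3
    have hHc : ∀ l, (fun j => H l (c j)) = 0 := by
      intro l
      apply hinj
      intro i
      have h1 := hrel i (by omega)
      have h3 := congrArg (H l) h1
      rw [hder] at h3
      have h4 : ∀ φ, IsW H m φ → H l ((Z : K → K)^[(i : ℕ)] φ) =
          (((m + (i : ℕ) • κ) l : ℤ) : ℂ) • (Z : K → K)^[(i : ℕ)] φ := fun φ hφ =>
        isW_iterate H Z κ hZ m φ hφ i l
      rw [h4 _ (hf _)] at h3
      have h5 : ∑ j : Fin n, H l ((Z : K → K)^[(i : ℕ)] (f j.castSucc)) * c j =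
          (((m + (i : ℕ) • κ) l : ℤ) : ℂ) • ∑ j : Fin n, (Z : K → K)^[(i : ℕ)] (f j.castSucc) * c j := by
        rw [Finset.smul_sum]
        refine Finset.sum_congr rfl fun j _ => ?_
        rw [h4 _ (hf _), smul_mul_assoc]
      rw [h5, ← h1] at h3
      linear_combination -h3
    have hcst : ∀ j, Cst (c j) := fun j =>
      hcon (c j) (fun l => congrFun (hHc l) j) (congrFun hZc j)
    choose t ht using hcst
    have h0' := hrel 0 (by omega)
    simp only [Function.iterate_zero, id_eq] at h0'
    -- a linear relation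
    have hnot := Fintype.linearIndependent_iff.mp hli
      (fun j => Fin.lastCases (-1 : ℂ) (fun j => t j) j) (by
        rw [Fin.sum_univ_castSucc]
        simp only [Fin.lastCases_castSucc, Fin.lastCases_last]
        rw [h0']
        rw [Finset.sum_congr rfl fun j _ => show t j • f j.castSucc = f j.castSucc * c j by
          rw [ht j, Algebra.smul_def, mul_comm]]
        rw [neg_smul, one_smul, add_neg_cancel]) (Fin.last n)
    simp at hnot

theorem s_WN : S_WN := by
  intro K _ _ r H Z κ hZ hcon n f m hf hli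
  exact wn_aux H Z κ hZ hcon m n f hf hli

end Pool.Agent.Helper13.D4
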