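import Pool.Agent.Helper11.D4.FrB
import Pool.Agent.Helper13.D4.Wr

/-!
# Project D4 (MP_e1889a_ag): the weight of the Wronskian, and valuations
-/

set_option autoImplicit false

namespace Pool.Agent.Helper13.D4

open Pool.Agent.Helper37.SD Pool.Agent.Helper88.D4

variable {K : Type} [Field K] [Algebra ℂ K]

section

variable {r : ℕ} {H : Fin r → Derivation ℂ K K}

theorem isW_zero (m : Fin r → ℤ) : IsW H m (0 : K) := fun i => by rw [map_zero, smul_zero]

theorem isW_add {m : Fin r → ℤ} {x y : K} (hx : IsW H m x) (hy : IsW H m y) :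
    IsW H m (x + y) := fun i => by rw [map_add, hx i, hy i, smul_add]

theorem isW_neg {m : Fin r → ℤ} {x : K} (hx : IsW H m x) : IsW H m (-x) := fun i => by
  rw [map_neg, hx i, smul_neg]

theorem isW_sum {ι : Type} {m : Fin r → ℤ} (s : Finset ι) (x : ι → K)
    (hx : ∀ i ∈ s, IsW H m (x i)) : IsW H m (∑ i ∈ s, x i) := fun j => by
  rw [map_sum, Finset.smul_sum]
  exact Finset.sum_congr rfl fun i hi => hx i hi j

theorem isW_one : IsW H 0 (1 : K) := fun i => by
  rw [Derivation.map_one_eq_zero]; simp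

theorem isW_mul {m m' : Fin r → ℤ} {x y : K} (hx : IsW H m x) (hy : IsW H m' y) :
    IsW H (m + m') (x * y) := fun i => by
  rw [Derivation.leibniz, hx i, hy i, Pi.add_apply, Int.cast_add, add_smul, smul_eq_mul,
    smul_eq_mul, mul_smul_comm, mul_smul_comm, mul_comm y x, add_comm]

theorem isW_prod {ι : Type} (m : ι → Fin r → ℤ) (s : Finset ι) (x : ι → K)
    (hx : ∀ i ∈ s, IsW H (m i) (x i)) : IsW H (∑ i ∈ s, m i) (∏ i ∈ s, x i) := by
  classical
  induction s using Finset.induction_on with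
  | empty => simpa using isW_one
  | insert a s ha ih =>
    rw [Finset.sum_insert ha, Finset.prod_insert ha]
    exact isW_mul (hx a (Finset.mem_insert_self a s))
      (ih fun i hi => hx i (Finset.mem_insert_of_mem hi))

theorem isW_sign {m : Fin r → ℤ} {x : K} (hx : IsW H m x) (e : ℤˣ) : IsW H m (e • x) := by
  rcases Int.units_eq_one_or e with rfl | rfl
  · simpa using hx
  · simpa using isW_neg hx

end

theorem s_WW : Pool.Agent.Helper11.D4.S_WW := by
  intro K _ _ r H Z κ hZ n f m hf
  unfold wr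
  rw [Matrix.det_apply]
  refine isW_sum _ _ fun σ _ => isW_sign ?_ _
  have h1 := isW_prod (H := H) (fun i : Fin n => m + ((σ i : Fin n) : ℕ) • κ) Finset.univ
    (fun i : Fin n => (Z : K → K)^[((σ i : Fin n) : ℕ)] (f i))
    fun i _ => isW_iterate H Z κ hZ m (f i) (hf i) _
  have h2 : ∑ i : Fin n, (m + ((σ i : Fin n) : ℕ) • κ) =
      (n : ℤ) • m + ((∑ i : Fin n, (i : ℕ) : ℕ) : ℤ) • κ := by
    rw [Finset.sum_add_distrib, Finset.sum_const, Finset.card_univ, Fintype.card_fin,
      ← Finset.sum_smul, Equiv.sum_comp σ fun i : Fin n => (i : ℕ)]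
    simp only [natCast_zsmul]
  rw [h2] at h1
  exact h1

theorem ge_iterate {u : RVal K} {Z : Derivation ℂ K K} (hZ : ∀ x, u.Ge 0 x → u.Ge 0 (Z x))
    {x : K} (hx : u.Ge 0 x) (i : ℕ) : u.Ge 0 ((Z : K → K)^[i] x) := by
  induction i with
  | zero => simpa using hx
  | succ i ih =>
    rw [Function.iterate_succ_apply']
    exact hZ _ ih

theorem ge_prod {ι : Type} {u : RVal K} (s : Finset ι) (x : ι → K)
    (hx : ∀ i ∈ s, u.Ge 0 (x i)) : u.Ge 0 (∏ i ∈ s, x i) := by
  classical
  induction s using Finset.induction_on with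
  | empty =>
    right
    rw [Finset.prod_empty]
    have := u.map_const 1 one_ne_zero
    rw [map_one] at this
    rw [this]
  | insert a s ha ih =>
    rw [Finset.prod_insert ha]
    have h := u.ge_mul (hx a (Finset.mem_insert_self a s))
      (ih fun i hi => hx i (Finset.mem_insert_of_mem hi))
    rwa [add_zero] at h

theorem s_WV : Pool.Agent.Helper11.D4.S_WV := by
  intro K _ _ u Z hZ n f hf
  unfold wr
  rw [Matrix.det_apply]
  refine u.ge_sum _ _ fun σ _ => ?_
  have h1 : u.Ge 0 (∏ i : Fin n, (Matrix.of fun (i j : Fin n) => (Z : K → K)^[i] (f j)) (σ i) i) :=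
    ge_prod _ _ fun i _ => ge_iterate hZ (hf i) _
  rcases Int.units_eq_one_or (Equiv.Perm.sign σ) with h | h
  · rw [h]; simpa using h1
  · rw [h]; simpa using u.ge_neg h1

end Pool.Agent.Helper13.D4
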