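import Pool.Agent.Helper34.D4.Hv

/-!
# Project D4 (MP_e1889a_ag): the equation of a homogeneous prime divisor (statement `S_HF`)
-/

set_option autoImplicit false

namespace Pool.Agent.Helper13.D4

open Pool.Agent.Helper88.D4

theorem s_HF : S_HF := by
  intro K _ _ R ξ r H c hR hn hT u hu s m hs hs0 hsm hus F hF
  obtain ⟨hFR, hF0, -, hFd⟩ := hF
  refine (Pool.Agent.Helper34.D4.isW_of_supp hR hn hT hs hs0 hsm hF0 fun u' hu' h => ?_).1
  refine le_antisymm (not_lt.1 fun h1 => ?_) (hu'.nonneg F hFR hF0)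
  have h2 := hFd u' hu' h1 s hs0
  rw [h] at h2
  rw [← h2] at hus
  exact lt_irrefl _ hus

end Pool.Agent.Helper13.D4
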